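import Pool.Agent.Y995.LG.Stm
import Pool.Agent.H342R3.Tig.POL
import Pool.Agent.H342R3.Lim.CPT

/-!
BDRY: the limits spend no time on the boundary of the square (helper500, job LG-BDRY).
-/

set_option autoImplicit false

namespace Pool.Agent.Y500.LG

open H984P H984N MeasureTheory Filter Topology Pool.Agent.Y995.LG
open scoped ENNReal

/-- Signed distance to the boundary of the square. -/
noncomputable def bd (z : ℂ) : ℝ := min (min z.re (1 - z.re)) (min z.im (1 - z.im))

theorem bd_cont : Continuous bd := by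
  unfold bd
  fun_prop

theorem bd_le {z w : ℂ} {r : ℝ} (h1 : |w.re - z.re| ≤ r) (h2 : |w.im - z.im| ≤ r) :
    bd w ≤ bd z + r := by
  have a1 := abs_le.1 h1
  have a2 := abs_le.1 h2
  have b1 : bd w ≤ w.re := (min_le_left _ _).trans (min_le_left _ _)
  have b2 : bd w ≤ 1 - w.re := (min_le_left _ _).trans (min_le_right _ _)
  have b3 : bd w ≤ w.im := (min_le_right _ _).trans (min_le_left _ _)
  have b4 : bd w ≤ 1 - w.im := (min_le_right _ _).trans (min_le_right _ _)
  have h : bd w - r ≤ bd z := by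
    refine le_min (le_min ?_ ?_) (le_min ?_ ?_)
    · linarith [a1.2]
    · linarith [a1.1]
    · linarith [a2.2]
    · linarith [a2.1]
  linarith

theorem mem_sq_iff (z : ℂ) : z ∈ sq ↔ 0 < bd z := by
  unfold bd Pool.Agent.Y995.LG.sq
  simp only [Set.mem_ofPred_eq, lt_min_iff, sub_pos]
  tauto

/-- The cut-off function near the complement of the square. -/
noncomputable def ph (η : ℝ) (z : ℂ) : ℝ := max 0 (min 1 (1 - 2 * bd z / η))

theorem ph_cont (η : ℝ) : Continuous (ph η) := by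
  unfold ph
  have := bd_cont
  fun_prop

theorem ph_nonneg (η : ℝ) (z : ℂ) : 0 ≤ ph η z := le_max_left _ _

theorem ph_le (η : ℝ) (z : ℂ) : ph η z ≤ 1 := max_le zero_le_one (min_le_left _ _)

theorem ph_one {η : ℝ} (hη : 0 < η) {z : ℂ} (hz : z ∉ sq) : ph η z = 1 := by
  have h1 : bd z ≤ 0 := not_lt.1 fun h => hz ((mem_sq_iff z).2 h)
  have h2 : 2 * bd z / η ≤ 0 := div_nonpos_of_nonpos_of_nonneg (by linarith) hη.le
  unfold ph
  rw [min_eq_left (by linarith), max_eq_right zero_le_one]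

theorem ph_zero {η : ℝ} (hη : 0 < η) {z : ℂ} (hz : η / 2 ≤ bd z) : ph η z = 0 := by
  have h2 : 1 ≤ 2 * bd z / η := by
    rw [le_div_iff₀ hη]
    linarith
  unfold ph
  exact max_eq_left ((min_le_right _ _).trans (by linarith))

/-- The natural time near the complement of the square. -/
noncomputable def Ph (η : ℝ) (p : X) : ℝ := p.2 * ∫ t : unitInterval, ph η (p.1 t)

theorem Ph_cont (η : ℝ) : Continuous (Ph η) := by
  unfold Ph
  refine continuous_snd.mul ?_
  refine continuous_of_dominated (bound := fun _ => (1 : ℝ)) ?_ ?_ ?_ ?_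
  · intro p
    exact ((ph_cont η).comp p.1.continuous).aestronglyMeasurable
  · intro p
    refine Eventually.of_forall fun t => ?_
    rw [Real.norm_of_nonneg (ph_nonneg _ _)]
    exact ph_le _ _
  · exact integrable_const _
  · refine Eventually.of_forall fun t => ?_
    exact (ph_cont η).comp ((continuous_eval_const t).comp continuous_fst)

theorem ph_int (η : ℝ) (c : C(unitInterval, ℂ)) :
    Integrable (fun t : unitInterval => ph η (c t)) :=
  Integrable.mono' (integrable_const (1 : ℝ)) ((ph_cont η).comp c.continuous).aestronglyMeasurable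
    (Eventually.of_forall fun t => by
      rw [Real.norm_of_nonneg (ph_nonneg _ _)]
      exact ph_le _ _)

/-- The time outside the square. -/
theorem vol_le {η : ℝ} (hη : 0 < η) (c : C(unitInterval, ℂ)) :
    (volume {t : unitInterval | c t ∉ sq}).toReal ≤ ∫ t : unitInterval, ph η (c t) := by
  have hop : IsClosed {t : unitInterval | c t ∉ sq} := by
    have : {t : unitInterval | c t ∉ sq} = {t | bd (c t) ≤ 0} := by
      ext t
      simp only [Set.mem_ofPred_eq, mem_sq_iff, not_lt]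
    rw [this]
    exact isClosed_le (bd_cont.comp c.continuous) continuous_const
  have hm := hop.measurableSet
  have h1 : (volume {t : unitInterval | c t ∉ sq}).toReal =
      ∫ t : unitInterval, ({t : unitInterval | c t ∉ sq}).indicator (fun _ => (1 : ℝ)) t := by
    rw [integral_indicator hm, setIntegral_const, smul_eq_mul, mul_one]
    rfl
  rw [h1]
  refine integral_mono ((integrable_const (1 : ℝ)).indicator hm) (ph_int η c) fun t => ?_
  by_cases h : t ∈ {t : unitInterval | c t ∉ sq}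
  · rw [Set.indicator_of_mem h, ph_one hη h]
  · rw [Set.indicator_of_notMem h]
    exact ph_nonneg _ _

/-! ### Lattice paths -/

theorem step (F : Set H974.Edg) (σ : St) (j : ℕ) :
    |(orb F σ (j + 1)).1.1 - (orb F σ j).1.1| ≤ 1 ∧
    |(orb F σ (j + 1)).1.2 - (orb F σ j).1.2| ≤ 1 := by
  rw [orb_succ]
  generalize orb F σ j = τ
  obtain ⟨⟨x, y⟩, q⟩ := τ
  by_cases h : ae ((x, y), q) ∈ F
  · rw [nxt_open h]
    cases q <;> simp
  · rw [nxt_closed h]
    cases q <;> simp

theorem pt_re (n : ℕ) (v : ℤ × ℤ) : (H342L.pt n v).re = (v.1 : ℝ) / n := rfl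

theorem pt_im (n : ℕ) (v : ℤ × ℤ) : (H342L.pt n v).im = (v.2 : ℝ) / n := rfl

theorem bd_pt {n : ℕ} (hn : 0 < n) (v : ℤ × ℤ) : (H342P.bdist n v : ℝ) / n ≤ bd (H342L.pt n v) := by
  have hn' : (0 : ℝ) < n := by exact_mod_cast hn
  have b1 : H342P.bdist n v ≤ v.1 := (min_le_left _ _).trans (min_le_left _ _)
  have b2 : H342P.bdist n v ≤ n - v.1 := (min_le_left _ _).trans (min_le_right _ _)
  have b3 : H342P.bdist n v ≤ v.2 := (min_le_right _ _).trans (min_le_left _ _)
  have b4 : H342P.bdist n v ≤ n - v.2 := (min_le_right _ _).trans (min_le_right _ _)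
  have c1 : (H342P.bdist n v : ℝ) ≤ v.1 := by exact_mod_cast b1
  have c2 : (H342P.bdist n v : ℝ) ≤ n - v.1 := by exact_mod_cast b2
  have c3 : (H342P.bdist n v : ℝ) ≤ v.2 := by exact_mod_cast b3
  have c4 : (H342P.bdist n v : ℝ) ≤ n - v.2 := by exact_mod_cast b4
  unfold bd
  rw [pt_re, pt_im]
  have e : ∀ x : ℝ, 1 - x / n = (n - x) / n := fun x => by field_simp
  rw [e, e]
  refine le_min (le_min ?_ ?_) (le_min ?_ ?_)
  all_goals gcongr

/-- Position on the path. -/
theorem poly_pos (f : ℕ → ℂ) {N : ℕ} (hN : 0 < N) (t : unitInterval) : ∃ j < N,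
    (j : ℝ) ≤ N * (t : ℝ) ∧ N * (t : ℝ) ≤ j + 1 ∧
    H342T.poly f N t = f j + ((N * (t : ℝ) - j : ℝ) : ℂ) * (f (j + 1) - f j) := by
  have hN' : (0 : ℝ) < N := by exact_mod_cast hN
  have ht0 : (0 : ℝ) ≤ N * (t : ℝ) := mul_nonneg hN'.le t.2.1
  have ht1 : (N : ℝ) * (t : ℝ) ≤ N := mul_le_of_le_one_right hN'.le t.2.2
  obtain ⟨j, hj, h1, h2⟩ : ∃ j < N, (j : ℝ) ≤ N * (t : ℝ) ∧ N * (t : ℝ) ≤ j + 1 := by
    by_cases h : ⌊(N : ℝ) * (t : ℝ)⌋₊ < N
    · exact ⟨_, h, Nat.floor_le ht0, (Nat.lt_floor_add_one _).le⟩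
    · have h3 : ((N - 1 : ℕ) : ℝ) = N - 1 := by
        rw [Nat.cast_sub (by omega)]
        simp
      have h4 : (N : ℝ) ≤ N * (t : ℝ) := (Nat.le_floor_iff ht0).1 (by omega)
      refine ⟨N - 1, by omega, ?_, ?_⟩
      · rw [h3]
        linarith
      · rw [h3]
        linarith
  exact ⟨j, hj, h1, h2, (H342T.t_POL f N hN).2.2.2 j hj t h1 h2⟩

theorem poly_near {n : ℕ} (hn : 0 < n) (F : Set H974.Edg) (σ : St) {N : ℕ} (hN : 0 < N)
    (t : unitInterval) : ∃ j < N, (j : ℝ) ≤ N * (t : ℝ) ∧ N * (t : ℝ) ≤ j + 1 ∧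
      bd (H342L.pt n (orb F σ j).1) ≤
        bd (H342T.poly (fun j => H342L.pt n (orb F σ j).1) N t) + 1 / n := by
  have hn' : (0 : ℝ) < n := by exact_mod_cast hn
  obtain ⟨j, hj, h1, h2, h3⟩ := poly_pos (fun j => H342L.pt n (orb F σ j).1) hN t
  refine ⟨j, hj, h1, h2, ?_⟩
  obtain ⟨s, hs⟩ : ∃ s : ℝ, s = N * (t : ℝ) - j := ⟨_, rfl⟩
  rw [← hs] at h3
  have hs0 : 0 ≤ s := by rw [hs]; linarith
  have hs1 : s ≤ 1 := by rw [hs]; linarith
  obtain ⟨a1, a2⟩ := step F σ j
  have a1' : |((orb F σ (j + 1)).1.1 : ℝ) - (orb F σ j).1.1| ≤ 1 := by exact_mod_cast a1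
  have a2' : |((orb F σ (j + 1)).1.2 : ℝ) - (orb F σ j).1.2| ≤ 1 := by exact_mod_cast a2
  have key : ∀ a b : ℝ, |b - a| ≤ 1 → |a / n - (a / n + s * (b / n - a / n))| ≤ 1 / n := by
    intro a b h
    have e1 : a / n - (a / n + s * (b / n - a / n)) = -(s * (b - a)) / n := by ring
    rw [e1, abs_div, abs_neg, abs_mul, abs_of_nonneg hs0, abs_of_pos hn']
    gcongr
    calc s * |b - a| ≤ 1 * 1 := by gcongr
      _ = 1 := one_mul 1
  refine bd_le ?_ ?_
  · rw [h3]
    simp only [Complex.add_re, Complex.re_ofReal_mul, Complex.sub_re, pt_re]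
    exact key _ _ a1'
  · rw [h3]
    simp only [Complex.add_im, Complex.im_ofReal_mul, Complex.sub_im, pt_im]
    exact key _ _ a2'

/-- The natural time near the complement of the square, for lattice paths. -/
theorem int_le {n : ℕ} (hn : 0 < n) {η : ℝ} (hη : 0 < η) (hnη : 2 ≤ η * n) (F : Finset Edge)
    (σ : St) {N : ℕ} (hN : 0 < N) :
    (N : ℝ) * ∫ t : unitInterval, ph η (H342T.poly (fun j => H342L.pt n (orb (↑F) σ j).1) N t)
      ≤ bdN n ⌈η * n⌉ F σ N := by
  have hn' : (0 : ℝ) < n := by exact_mod_cast hn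
  have hN' : (0 : ℝ) < N := by exact_mod_cast hN
  set c := H342T.poly (fun j => H342L.pt n (orb (↑F) σ j).1) N with hc
  obtain ⟨S, hS⟩ : ∃ S : Finset ℕ, S =
      (Finset.range N).filter (fun j => H342P.bdist n (orb (↑F) σ j).1 < ⌈η * n⌉) := ⟨_, rfl⟩
  have hSc : (bdN n ⌈η * n⌉ F σ N : ℝ) = S.card := by
    unfold bdN
    rw [hS]
  set A : ℕ → Set unitInterval := fun j => {t | (j : ℝ) ≤ N * (t : ℝ) ∧ N * (t : ℝ) ≤ j + 1} with hA
  have hAm : ∀ j, MeasurableSet (A j) := by
    intro j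
    have : IsClosed (A j) := by
      refine IsClosed.and ?_ ?_
      · exact isClosed_le continuous_const (by fun_prop)
      · exact isClosed_le (by fun_prop) continuous_const
    exact this.measurableSet
  have hAv : ∀ j < N, (volume (A j)).toReal ≤ 1 / N := by
    intro j hj
    have hj' : ((j : ℝ) + 1) ≤ N := by exact_mod_cast hj
    have h0 : (0 : ℝ) ≤ j := Nat.cast_nonneg j
    have x0 : (j : ℝ) / N ∈ unitInterval :=
      ⟨by positivity, by rw [div_le_one hN']; linarith⟩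
    have x1 : ((j : ℝ) + 1) / N ∈ unitInterval :=
      ⟨by positivity, by rw [div_le_one hN']; linarith⟩
    have h1 : A j ⊆ Set.Icc (⟨(j : ℝ) / N, x0⟩ : unitInterval) ⟨((j : ℝ) + 1) / N, x1⟩ := by
      rintro t ⟨ht1, ht2⟩
      refine ⟨?_, ?_⟩
      · rw [← Subtype.coe_le_coe]
        show (j : ℝ) / N ≤ t
        rw [div_le_iff₀ hN']
        linarith
      · rw [← Subtype.coe_le_coe]
        show (t : ℝ) ≤ (j + 1) / N
        rw [le_div_iff₀ hN']
        linarith
    have h2 := measure_mono (μ := volume) h1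
    rw [unitInterval.volume_Icc] at h2
    refine ENNReal.toReal_le_of_le_ofReal (by positivity) (h2.trans (le_of_eq ?_))
    congr 1
    show ((j : ℝ) + 1) / N - j / N = 1 / N
    ring
  have hpt : ∀ t : unitInterval, ph η (c t) ≤ ∑ j ∈ S, (A j).indicator (fun _ => (1 : ℝ)) t := by
    intro t
    have hnn : ∀ j ∈ S, 0 ≤ (A j).indicator (fun _ => (1 : ℝ)) t := fun j _ =>
      Set.indicator_nonneg (fun _ _ => zero_le_one) _
    by_cases hb : η / 2 ≤ bd (c t)
    · rw [ph_zero hη hb]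
      exact Finset.sum_nonneg hnn
    · obtain ⟨j, hj, h1, h2, h3⟩ := poly_near hn (↑F) σ hN t
      rw [← hc] at h3
      have h4 : bd (H342L.pt n (orb (↑F) σ j).1) < η := by
        have h5 : 1 / (n : ℝ) ≤ η / 2 := by
          rw [div_le_div_iff₀ hn' (by norm_num)]
          linarith
        push Not at hb
        linarith
      have h5 := (bd_pt hn (orb (↑F) σ j).1).trans_lt h4
      rw [div_lt_iff₀ hn'] at h5
      have hjS : j ∈ S := by
        rw [hS, Finset.mem_filter, Finset.mem_range]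
        refine ⟨hj, ?_⟩
        have h6 : ((H342P.bdist n (orb (↑F) σ j).1 : ℤ) : ℝ) < (⌈η * n⌉ : ℤ) :=
          h5.trans_le (Int.le_ceil _)
        exact_mod_cast h6
      have h7 : (A j).indicator (fun _ => (1 : ℝ)) t = 1 :=
        Set.indicator_of_mem (show t ∈ A j from ⟨h1, h2⟩) _
      calc ph η (c t) ≤ 1 := ph_le _ _
        _ = (A j).indicator (fun _ => (1 : ℝ)) t := h7.symm
        _ ≤ _ := Finset.single_le_sum hnn hjS
  have hint : ∀ j, Integrable ((A j).indicator (fun _ : unitInterval => (1 : ℝ))) := fun j =>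
    (integrable_const (1 : ℝ)).indicator (hAm j)
  have h1 : ∫ t : unitInterval, ph η (c t) ≤ S.card * (1 / N) := by
    calc ∫ t : unitInterval, ph η (c t)
        ≤ ∫ t : unitInterval, ∑ j ∈ S, (A j).indicator (fun _ => (1 : ℝ)) t :=
          integral_mono (ph_int η c) (integrable_finsetSum _ fun j _ => hint j) hpt
      _ = ∑ j ∈ S, ∫ t : unitInterval, (A j).indicator (fun _ => (1 : ℝ)) t :=
          integral_finsetSum _ fun j _ => hint j
      _ = ∑ j ∈ S, (volume (A j)).toReal := by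
          refine Finset.sum_congr rfl fun j _ => ?_
          rw [integral_indicator (hAm j), setIntegral_const, smul_eq_mul, mul_one]
          rfl
      _ ≤ ∑ j ∈ S, 1 / (N : ℝ) := by
          refine Finset.sum_le_sum fun j hj => hAv j ?_
          rw [hS, Finset.mem_filter, Finset.mem_range] at hj
          exact hj.1
      _ = _ := by rw [Finset.sum_const, nsmul_eq_mul]
  rw [hSc]
  calc (N : ℝ) * ∫ t : unitInterval, ph η (c t) ≤ N * (S.card * (1 / N)) := by gcongr
    _ = S.card := by field_simp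

theorem closure_sq_mem {z : ℂ} (h : (0 ≤ z.re ∧ z.re ≤ 1) ∧ 0 ≤ z.im ∧ z.im ≤ 1) :
    z ∈ closure sq := by
  have h1 : sq = Set.Ioo (0 : ℝ) 1 ×ℂ Set.Ioo (0 : ℝ) 1 := by
    ext w
    simp only [Pool.Agent.Y995.LG.sq, Set.mem_ofPred_eq, Complex.mem_reProdIm, Set.mem_Ioo]
    tauto
  rw [h1, Complex.closure_reProdIm, closure_Ioo zero_ne_one, Complex.mem_reProdIm]
  exact ⟨⟨h.1.1, h.1.2⟩, ⟨h.2.1, h.2.2⟩⟩

/-- The trace of the lattice paths is in the closed square. -/
theorem trace_sq {n : ℕ} (hn : 0 < n) (F : Finset Edge) (σ : St) {N : ℕ} (hN : 0 < N)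
    (hbox : ∀ j, (orb (↑F) σ j).1 ∈ H342P.Plain.box n) (t : unitInterval) :
    H342T.poly (fun j => H342L.pt n (orb (↑F) σ j).1) N t ∈ closure sq := by
  have hn' : (0 : ℝ) < n := by exact_mod_cast hn
  obtain ⟨j, hj, h1, h2, h3⟩ := poly_pos (fun j => H342L.pt n (orb (↑F) σ j).1) hN t
  obtain ⟨s, hs⟩ : ∃ s : ℝ, s = N * (t : ℝ) - j := ⟨_, rfl⟩
  rw [← hs] at h3
  have hs0 : 0 ≤ s := by rw [hs]; linarith
  have hs1 : s ≤ 1 := by rw [hs]; linarith
  have hb : ∀ i, ((0 : ℝ) ≤ ((orb (↑F) σ i).1.1 : ℝ) / n ∧ ((orb (↑F) σ i).1.1 : ℝ) / n ≤ 1) ∧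
      (0 : ℝ) ≤ ((orb (↑F) σ i).1.2 : ℝ) / n ∧ ((orb (↑F) σ i).1.2 : ℝ) / n ≤ 1 := by
    intro i
    have := hbox i
    unfold H342P.Plain.box at this
    rw [Finset.mem_product, Finset.mem_Icc, Finset.mem_Icc] at this
    obtain ⟨⟨q1, q2⟩, q3, q4⟩ := this
    have q1' : (0 : ℝ) ≤ ((orb (↑F) σ i).1.1 : ℝ) := by exact_mod_cast q1
    have q2' : ((orb (↑F) σ i).1.1 : ℝ) ≤ n := by exact_mod_cast q2
    have q3' : (0 : ℝ) ≤ ((orb (↑F) σ i).1.2 : ℝ) := by exact_mod_cast q3
    have q4' : ((orb (↑F) σ i).1.2 : ℝ) ≤ n := by exact_mod_cast q4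
    exact ⟨⟨by positivity, by rwa [div_le_one hn']⟩, by positivity, by rwa [div_le_one hn']⟩
  have key : ∀ a b : ℝ, (0 ≤ a ∧ a ≤ 1) → (0 ≤ b ∧ b ≤ 1) →
      0 ≤ a + s * (b - a) ∧ a + s * (b - a) ≤ 1 := by
    rintro a b ⟨a0, a1⟩ ⟨b0, b1⟩
    constructor
    · nlinarith
    · nlinarith
  apply closure_sq_mem
  rw [h3]
  simp only [Complex.add_im, Complex.im_ofReal_mul, Complex.sub_im, pt_im, Complex.add_re,
    Complex.re_ofReal_mul, Complex.sub_re, pt_re]
  exact ⟨key _ _ (hb j).1 (hb (j + 1)).1, key _ _ (hb j).2 (hb (j + 1)).2⟩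

/-! ### Weak convergence -/

/-- The portmanteau theorem for an open set of small probability. -/
theorem port {f : (n : ℕ) → Finset Edge → X} {k : ℕ → ℕ} (hk : Tendsto k atTop atTop)
    {μ : ProbabilityMeasure X} (hμ : Tendsto (fun i => H342L.lawOf (k i) (f (k i))) atTop (𝓝 μ))
    {G : Set X} (hG : IsOpen G) {ε : ℝ} {n0 : ℕ}
    (h : ∀ n ≥ n0, H342P.Plain.prob n (fun F => f n F ∈ G) ≤ ε) :
    (μ : Measure X) G ≤ ENNReal.ofReal ε := by
  refine (ProbabilityMeasure.le_liminf_measure_open_of_tendsto hμ hG).trans ?_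
  have h1 : ∀ᶠ i in atTop, (H342L.lawOf (k i) (f (k i)) : Measure X) G ≤ ENNReal.ofReal ε := by
    filter_upwards [hk.eventually_ge_atTop n0] with i hi
    rw [H342L.lawOf_apply _ _ hG.measurableSet]
    exact ENNReal.ofReal_le_ofReal (h _ hi)
  exact liminf_le_of_frequently_le' h1.frequently

theorem prob_false {n : ℕ} {A : Finset Edge → Prop}
    (h : ∀ F, F ⊆ H342P.Plain.edges n → ¬ A F) : H342P.Plain.prob n A ≤ 0 := by
  classical
  unfold H342P.Plain.prob
  rw [Finset.filter_eq_empty_iff.2 fun F hF => h F (Finset.mem_powerset.1 hF)]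
  simp

/-- BDRY: the limits spend no time on the boundary of the square. -/
theorem bdry (h : S_BDN) : S_BDRY := by
  intro sel f hsel k hk μ hμ
  -- the trace
  have h1 : ∀ᵐ p ∂(μ : Measure X), ∀ t, p.1 t ∈ closure sq := by
    have hop : IsOpen {p : X | ¬ ∀ t, p.1 t ∈ closure sq} := by
      have : {p : X | ¬ ∀ t, p.1 t ∈ closure sq} = (⋂ t, {p : X | p.1 t ∈ closure sq})ᶜ := by
        ext p
        simp only [Set.mem_ofPred_eq, Set.mem_compl_iff, Set.mem_iInter]
      rw [this, isOpen_compl_iff]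
      refine isClosed_iInter fun t => ?_
      exact isClosed_closure.preimage ((continuous_eval_const t).comp continuous_fst)
    rw [ae_iff]
    have h2 := port (n0 := 1) (ε := 0) hk hμ hop ?_
    · rw [ENNReal.ofReal_zero] at h2
      exact le_antisymm h2 bot_le
    · intro n hn
      refine prob_false fun F hF hcon => hcon ?_
      have hn0 : 0 < n := hn
      obtain ⟨σ, N, hN, hσ, ho, hp, hmin, he⟩ := hsel.nat n F hn0 hF
      have hbox : ∀ s, (orb (↑F) σ s).1 ∈ H342P.Plain.box n := by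
        intro s
        apply H342L.CPT_box hF (hsel.big n F hn0 hF).1
        rw [H342P.Plain.mem_cluster] at hσ ⊢
        exact hσ.trans (pb_reach _ _ _)
      rw [he]
      exact trace_sq hn0 F σ hN hbox
  have h2 : ∀ᵐ p ∂(μ : Measure X), 0 ≤ p.2 := by
    have hop : IsOpen {p : X | ¬ 0 ≤ p.2} := by
      simp only [not_le]
      exact isOpen_lt continuous_snd continuous_const
    rw [ae_iff]
    have h2 := port (n0 := 1) (ε := 0) hk hμ hop ?_
    · rw [ENNReal.ofReal_zero] at h2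
      exact le_antisymm h2 bot_le
    · intro n hn
      refine prob_false fun F hF hcon => hcon ?_
      have hn0 : 0 < n := hn
      obtain ⟨σ, N, hN, hσ, ho, hp, hmin, he⟩ := hsel.nat n F hn0 hF
      rw [he]
      positivity
  -- the time
  have h3 : ∀ θ : ℝ, 0 < θ →
      (μ : Measure X) {p : X | θ < p.2 * (volume {t : unitInterval | p.1 t ∉ sq}).toReal} = 0 := by
    intro θ hθ
    refine le_antisymm ?_ bot_le
    refine ENNReal.le_of_forall_pos_le_add fun ε hε _ => ?_
    rw [zero_add]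
    have hε' : (0 : ℝ) < ε := hε
    obtain ⟨η, n0, hη, hn0⟩ := h ε θ hε' hθ
    have hsub : {p : X | θ < p.2 * (volume {t : unitInterval | p.1 t ∉ sq}).toReal} ⊆
        {p : X | θ < Ph η p} := by
      intro p hp
      simp only [Set.mem_ofPred_eq] at hp ⊢
      have hv := vol_le hη p.1
      rcases lt_or_ge p.2 0 with h4 | h4
      · have h5 : p.2 * (volume {t : unitInterval | p.1 t ∉ sq}).toReal ≤ 0 :=
          mul_nonpos_of_nonpos_of_nonneg h4.le ENNReal.toReal_nonneg
        linarith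
      · exact hp.trans_le (mul_le_mul_of_nonneg_left hv h4)
    refine (measure_mono hsub).trans ?_
    have hop : IsOpen {p : X | θ < Ph η p} := isOpen_lt continuous_const (Ph_cont η)
    have h5 := port (n0 := max (max n0 1) ⌈2 / η⌉₊) (ε := ε) hk hμ hop ?_
    · refine h5.trans (le_of_eq ?_)
      exact ENNReal.ofReal_coe_nnreal
    · intro n hn
      have hn1 : n0 ≤ n := (le_max_left _ _).trans ((le_max_left _ _).trans hn)
      have hn2 : 0 < n := (le_max_right _ _).trans ((le_max_left _ _).trans hn)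
      have hn3 : ⌈2 / η⌉₊ ≤ n := (le_max_right _ _).trans hn
      have hn' : (0 : ℝ) < n := by exact_mod_cast hn2
      have hnη : 2 ≤ η * n := by
        have h6 : 2 / η ≤ n := Nat.ceil_le.1 hn3
        rw [div_le_iff₀ hη] at h6
        linarith
      refine (H342L.prob_mono fun F hF hA => ?_).trans (hn0 n hn1)
      obtain ⟨σ, N, hN, hσ, ho, hp, hmin, he⟩ := hsel.nat n F hn2 hF
      refine ⟨sel n F, σ, N, hsel.big n F hn2 hF, hN, hσ, ho, hp, hmin, ?_⟩
      have hA' : θ < Ph η (f n F) := hA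
      rw [he] at hA'
      unfold Ph at hA'
      have h7 := int_le hn2 hη hnη F σ hN
      have h8 : (0 : ℝ) < (n : ℝ) ^ (7/4 : ℝ) := by positivity
      have h9 : θ * (n : ℝ) ^ (7/4 : ℝ) < (N : ℝ) / (n : ℝ) ^ (7/4 : ℝ) *
          (∫ t : unitInterval, ph η (H342T.poly (fun j => H342L.pt n (orb (↑F) σ j).1) N t)) *
            (n : ℝ) ^ (7/4 : ℝ) := mul_lt_mul_of_pos_right hA' h8
      have e1 : ∀ a b c : ℝ, 0 < c → a / c * b * c = a * b := fun a b c hc => by field_simp
      rw [e1 _ _ _ h8] at h9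
      linarith
  have h4 : ∀ᵐ p ∂(μ : Measure X), ∀ m : ℕ,
      ¬ 1 / ((m : ℝ) + 1) < p.2 * (volume {t : unitInterval | p.1 t ∉ sq}).toReal := by
    rw [ae_all_iff]
    intro m
    rw [ae_iff]
    simp only [not_not]
    exact h3 _ (by positivity)
  filter_upwards [h1, h2, h4] with p p1 p2 p3
  refine ⟨p1, le_antisymm ?_ (mul_nonneg p2 ENNReal.toReal_nonneg)⟩
  by_contra hcon
  push Not at hcon
  obtain ⟨m, hm⟩ := exists_nat_one_div_lt hcon
  exact p3 m hm

end Pool.Agent.Y500.LG
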